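import Pool.Agent.Helper92_SBG.Rd

/-!
# Module CSB: case B of the upper bound
-/

namespace Pool.Agent.SBG.H28

open Sy Pool.Agent.SBG

variable {k : ℕ}

/-- The first coordinate modulo `N`. -/
def mhom (k N : ℕ) : Gp k →* Multiplicative (ZMod N) where
  toFun g := Multiplicative.ofAdd (g.m : ZMod N)
  map_one' := by simp
  map_mul' g h := by simp [ofAdd_add]

lemma Sm_of {C n e K d : ℕ} {H : Subgroup (Gp k)} {g : Gp k} (hn : 1 ≤ n)
    (h1 : relDepth H g ≤ (d : ℕ∞)) (h2 : d ≤ K * n ^ e)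
    (h3 : 2 * e ≤ (68 * k + 23) * (16 * k + 5)) (h4 : K ^ 2 ≤ C) : Sm C n H g := by
  refine ⟨d, h1, ?_⟩
  calc d ^ 2 ≤ (K * n ^ e) ^ 2 := Nat.pow_le_pow_left h2 2
    _ = K ^ 2 * n ^ (2 * e) := by rw [mul_pow, ← pow_mul, mul_comm e 2]
    _ ≤ C * n ^ ((68 * k + 23) * (16 * k + 5)) :=
        Nat.mul_le_mul h4 (Nat.pow_le_pow_right hn h3)

lemma Sm_mono {C C' n : ℕ} {H : Subgroup (Gp k)} {g : Gp k} (h : C ≤ C') (hs : Sm C n H g) :
    Sm C' n H g := by
  obtain ⟨d, h1, h2⟩ := hs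
  exact ⟨d, h1, h2.trans (Nat.mul_le_mul_right _ h)⟩

lemma relIndex_nsmul_mem {A : Type*} [AddCommGroup A] (L M : AddSubgroup A) (v : A)
    (hv : v ∈ M) : (L.relIndex M) • v ∈ L := by
  have h := AddSubgroup.nsmul_index_mem (L.addSubgroupOf M) (⟨v, hv⟩ : M)
  exact h

lemma tr_of (hhmg : HmgStmt) {h : Gp k} {Ys : Finset (W k)} {H : Subgroup (Gp k)} (hm : 0 < h.m)
    (hH : H = Subgroup.closure (insert h ((fun x => (⟨0, x⟩ : Gp k)) '' (Ys : Set (W k))))) :
    Tr H h.m.toNat := by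
  have h1 := (hhmg k h Ys H hm hH).1
  have h2 : ((h.m.toNat : ℕ) : ℤ) = h.m := Int.toNat_of_nonneg hm.le
  have h3 : h ∈ H := by
    rw [hH]
    exact Subgroup.subset_closure (Set.mem_insert _ _)
  refine ⟨by omega, ?_, Or.inr ⟨h, h3, h2.symm⟩⟩
  intro g hg
  rw [h2]
  exact h1 g hg

/-- The central step. -/
lemma core (hhmg : HmgStmt) (hcbz : CbzStmt) (hchi : ChiStmt) (hsep : SepStmt) (hidx : IdxStmt)
    (k A : ℕ) (hk : 100 ≤ k) : ∃ C : ℕ, ∀ n : ℕ, 1 ≤ n → ∀ (h : Gp k) (Ys : Finset (W k))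
    (H : Subgroup (Gp k)), 0 < h.m → h.m ≤ A * n →
    (∀ c : Ix k, |h.x (Sum.inl c)| ≤ A * (n : ℤ) ^ (wtI c + 1)) →
    (∀ y ∈ Ys, (∀ c : Ix k, |y (Sum.inl c)| ≤ A * (n : ℤ) ^ (wtI c + 2)) ∧
      ∀ j, |y (Sum.inr j)| ≤ A * (n : ℤ) ^ 9) →
    H = Subgroup.closure (insert h ((fun x => (⟨0, x⟩ : Gp k)) '' (Ys : Set (W k)))) →
    ∀ z : Fin 2 → ℤ, z ∈ sat (Lam H) → z ∉ Lam H → Sm C n H ⟨0, zin z⟩ := by
  obtain ⟨C, hC⟩ := hcbz k A
  refine ⟨(A * 40320 * (C * C) ^ 5 * C ^ (16 * k)) ^ 2, ?_⟩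
  intro n hn h Ys H hm hmA hh hY hH z hz hz'
  obtain ⟨⟨e0, e1⟩, q0, q1⟩ := hC n hn h Ys H hm hmA hh hY hH
  have hch := hchi (Fin 2) (Lam H) z hz hz'
  set ε := (LM H).relIndex (sat (LM H)) with hε
  set q := (Lam H).relIndex (sat (Lam H)) with hq
  obtain ⟨_, χ, hχ, hχz⟩ := hch
  have htr := tr_of hhmg hm hH
  have h1 := hsep k H h.m.toNat htr q ε (Nat.pos_of_ne_zero q0) (Nat.pos_of_ne_zero e0) χ hχ
    (fun v hv => relIndex_nsmul_mem _ _ v hv) z hχz
  have h2 := (hidx k q (Nat.pos_of_ne_zero q0) χ).2.1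
  have ha : h.m.toNat ≤ A * n := by
    have : h.m ≤ ((A * n : ℕ) : ℤ) := by push_cast; exact hmA
    omega
  refine Sm_of (e := 1 + 5 * ((29 * k + 23) + (84 * k + 12)) + (29 * k + 23) * (16 * k)) hn h1 ?_
    ?_ le_rfl
  · calc h.m.toNat * 40320 * (q * ε) ^ 5 * (Rc (k := k) χ).index
        ≤ (A * n) * 40320 * ((C * n ^ (29 * k + 23)) * (C * n ^ (84 * k + 12))) ^ 5 *
          (C * n ^ (29 * k + 23)) ^ (16 * k) := by
          gcongr
          exact h2.trans (Nat.pow_le_pow_left q1 _)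
      _ = _ := by
          rw [mul_pow C (n ^ (29 * k + 23)) (16 * k), ← pow_mul n (29 * k + 23) (16 * k)]
          have e2 : (C * n ^ (29 * k + 23)) * (C * n ^ (84 * k + 12)) =
              (C * C) * n ^ ((29 * k + 23) + (84 * k + 12)) := by
            rw [pow_add]; ring
          rw [e2, mul_pow (C * C) _ 5, ← pow_mul, pow_add, pow_add, pow_one,
            mul_comm ((29 * k + 23) + (84 * k + 12)) 5]
          ring
  · nlinarith

/-- Sizes of the iterates of `fop h`. -/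
lemma fop_size {n : ℕ} (hn : 1 ≤ n) (h : Gp k) (A : ℕ) (hm0 : 0 < h.m) (hm : h.m ≤ A * n)
    (y : W k) (Y : ℤ) (hY : 0 ≤ Y) (hy : ∀ c : Ix k, |y (Sum.inl c)| ≤ Y * (n : ℤ) ^ (wtI c))
    (s : ℕ) : ∀ c : Ix k, |((fop h)^[s] y) (Sum.inl c)| ≤
      ((40 * A ^ 3 + 1) ^ s * Y) * (n : ℤ) ^ (wtI c) := by
  have hA : (1 : ℤ) ≤ A := by
    by_contra hcon
    have h0 : (A : ℤ) = 0 := by omega
    rw [h0, zero_mul] at hm
    omega
  induction s with
  | zero => simpa using hy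
  | succ s ih =>
    intro c
    rw [Function.iterate_succ_apply']
    set u := (fop h)^[s] y with hu
    set Y' : ℤ := (40 * A ^ 3 + 1) ^ s * Y with hY'
    have hY0 : 0 ≤ Y' := by positivity
    have hm' : |h.m| ≤ A * n := by rw [abs_of_pos hm0]; exact hm
    have h1 := (tp_bound hn u Y' A hY0 hA ih h.m hm').1 c
    have h2 : fop h u (Sum.inl c) = tp h.m u (Sum.inl c) - u (Sum.inl c) := by
      have h3 : fop h u = tp h.m u + 2 • Bf h.x (tp h.m u) - u := rfl
      rw [h3]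
      have h4 : Bf h.x (tp h.m u) (Sum.inl c) = 0 := rfl
      rw [Pi.sub_apply, Pi.add_apply, Pi.smul_apply, h4, smul_zero, add_zero]
    rw [h2]
    have h5 := ih c
    calc |tp h.m u (Sum.inl c) - u (Sum.inl c)| ≤ |tp h.m u (Sum.inl c)| + |u (Sum.inl c)| :=
          abs_sub _ _
      _ ≤ 40 * A ^ 3 * Y' * (n : ℤ) ^ (wtI c) + Y' * (n : ℤ) ^ (wtI c) := add_le_add h1 h5
      _ = _ := by rw [hY', pow_succ]; ring

/-- The case where the non central part is not in `LM H`. -/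
lemma vcase (hhmg : HmgStmt) (hcru : CruStmt) (hchi : ChiStmt) (hvsp : VspStmt)
    (k A : ℕ) (hk : 100 ≤ k) : ∃ C : ℕ, ∀ n : ℕ, 1 ≤ n → ∀ (h : Gp k) (Ys : Finset (W k))
    (H : Subgroup (Gp k)), 0 < h.m → h.m ≤ A * n →
    (∀ y ∈ Ys, ∀ c : Ix k, |y (Sum.inl c)| ≤ A * (n : ℤ) ^ (wtI c + 2)) →
    H = Subgroup.closure (insert h ((fun x => (⟨0, x⟩ : Gp k)) '' (Ys : Set (W k)))) →
    ∀ w : W k, (∀ c : Ix k, |w (Sum.inl c)| ≤ A * (n : ℤ) ^ (wtI c + 2)) → pv w ∉ LM H →
      Sm C n H ⟨0, w⟩ := by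
  classical
  obtain ⟨C, hC⟩ := hcru k (2 * ((40 * A ^ 3 + 1) ^ 3 * A)) 2
  refine ⟨(A * 40320 * C ^ 5) ^ 2, ?_⟩
  intro n hn h Ys H hm hmA hY hH w hw hv
  have hn0 : (0 : ℤ) < n := by exact_mod_cast hn
  obtain ⟨_, hLM, _⟩ := hhmg k h Ys H hm hH
  have htr := tr_of hhmg hm hH
  have ha : h.m.toNat ≤ A * n := by
    have : h.m ≤ ((A * n : ℕ) : ℤ) := by push_cast; exact hmA
    omega
  -- the finite set of generators of `LM H`
  set T0 : Finset (V k) := (Ys ×ˢ Finset.range 4).image (fun p => pv ((fop h)^[p.2] p.1)) with hT0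
  have hT0' : (T0 : Set (V k)) = {v | ∃ y ∈ Ys, ∃ s < 4, v = pv ((fop h)^[s] y)} := by
    ext v
    rw [Finset.mem_coe, hT0, Finset.mem_image]
    constructor
    · rintro ⟨p, hp, rfl⟩
      rw [Finset.mem_product, Finset.mem_range] at hp
      exact ⟨p.1, hp.1, p.2, hp.2, rfl⟩
    · rintro ⟨y, hy, s, hs, rfl⟩
      exact ⟨(y, s), by rw [Finset.mem_product, Finset.mem_range]; exact ⟨hy, hs⟩, rfl⟩
  have hLM' : LM H = AddSubgroup.closure (T0 : Set (V k)) := by rw [hLM, hT0']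
  have hsz0 : ∀ x ∈ T0, ∀ c, |x c| ≤
      (2 * ((40 * A ^ 3 + 1) ^ 3 * A) : ℕ) * (n : ℤ) ^ (wtI c + 2) := by
    intro x hx c
    rw [hT0, Finset.mem_image] at hx
    obtain ⟨p, hp, rfl⟩ := hx
    rw [Finset.mem_product, Finset.mem_range] at hp
    have h1 := fop_size hn h A hm hmA p.1 (A * (n : ℤ) ^ 2) (by positivity)
      (fun c => by rw [mul_assoc, ← pow_add, add_comm 2]; exact hY p.1 hp.1 c) p.2 c
    have h2 : ((40 * (A : ℤ) ^ 3 + 1) ^ p.2) ≤ (40 * (A : ℤ) ^ 3 + 1) ^ 3 :=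
      pow_le_pow_right₀ (by have : (0 : ℤ) ≤ (A : ℤ) ^ 3 := by positivity
                            linarith) (by omega)
    calc |pv ((fop h)^[p.2] p.1) c| = |((fop h)^[p.2] p.1) (Sum.inl c)| := rfl
      _ ≤ ((40 * A ^ 3 + 1) ^ p.2 * (A * (n : ℤ) ^ 2)) * (n : ℤ) ^ (wtI c) := h1
      _ ≤ ((40 * A ^ 3 + 1) ^ 3 * (A * (n : ℤ) ^ 2)) * (n : ℤ) ^ (wtI c) := by gcongr
      _ = ((40 * A ^ 3 + 1) ^ 3 * A) * (n : ℤ) ^ (wtI c + 2) := by rw [pow_add]; ring
      _ ≤ (2 * ((40 * A ^ 3 + 1) ^ 3 * A) : ℕ) * (n : ℤ) ^ (wtI c + 2) := by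
          push_cast
          have : (0 : ℤ) ≤ ((40 * A ^ 3 + 1) ^ 3 * A) * (n : ℤ) ^ (wtI c + 2) := by positivity
          linarith
  -- a lattice `L'` which contains `LM H`, with `v ∈ sat L'` and `v ∉ L'`
  obtain ⟨T, hT1, hT2, hT3, hT4⟩ : ∃ T : Finset (V k),
      (∀ x ∈ T, ∀ c, |x c| ≤ (2 * ((40 * A ^ 3 + 1) ^ 3 * A) : ℕ) * (n : ℤ) ^ (wtI c + 2)) ∧
      LM H ≤ AddSubgroup.closure (T : Set (V k)) ∧
      pv w ∈ sat (AddSubgroup.closure (T : Set (V k))) ∧
      pv w ∉ AddSubgroup.closure (T : Set (V k)) := by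
    by_cases hs : pv w ∈ sat (LM H)
    · refine ⟨T0, hsz0, hLM'.le, ?_, ?_⟩
      · rw [← hLM']; exact hs
      · rw [← hLM']; exact hv
    · refine ⟨insert (2 • pv w) T0, ?_, ?_, ?_, ?_⟩
      · intro x hx c
        rw [Finset.mem_insert] at hx
        rcases hx with rfl | hx
        · have h1 := hw c
          have h2 : (1 : ℤ) ≤ (40 * (A : ℤ) ^ 3 + 1) ^ 3 := one_le_pow₀ (by
            have : (0 : ℤ) ≤ (A : ℤ) ^ 3 := by positivity
            linarith)
          have h3 : (0 : ℤ) ≤ A * (n : ℤ) ^ (wtI c + 2) := by positivity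
          calc |(2 • pv w) c| = 2 * |w (Sum.inl c)| := by
                rw [Pi.smul_apply, nsmul_eq_mul, abs_mul]; rfl
            _ ≤ 2 * (A * (n : ℤ) ^ (wtI c + 2)) := by linarith
            _ ≤ 2 * ((40 * (A : ℤ) ^ 3 + 1) ^ 3 * (A * (n : ℤ) ^ (wtI c + 2))) := by nlinarith
            _ = _ := by push_cast; ring
        · exact hsz0 x hx c
      · rw [hLM']
        apply AddSubgroup.closure_mono
        intro x hx
        rw [Finset.mem_coe, Finset.mem_insert]
        exact Or.inr hx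
      · exact ⟨2, by norm_num, AddSubgroup.subset_closure (by
          rw [Finset.mem_coe, Finset.mem_insert]; exact Or.inl rfl)⟩
      · intro hcon
        apply hs
        rw [Finset.coe_insert, Set.insert_eq, AddSubgroup.closure_union, ← hLM',
          AddSubgroup.mem_sup] at hcon
        obtain ⟨a, ha1, b, hb, hab⟩ := hcon
        rw [← AddSubgroup.zmultiples_eq_closure, AddSubgroup.mem_zmultiples_iff] at ha1
        obtain ⟨t, rfl⟩ := ha1
        have hb' : b = (1 - 2 * t) • pv w := by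
          have : b = pv w - t • (2 • pv w) := (sub_eq_of_eq_add' hab.symm).symm
          rw [this, sub_smul, one_smul, mul_comm, mul_smul]
          rfl
        have hne : (1 - 2 * t : ℤ) ≠ 0 := by omega
        refine ⟨(1 - 2 * t).natAbs, Int.natAbs_pos.2 hne, ?_⟩
        rcases Int.natAbs_eq (1 - 2 * t) with h1 | h1
        · have h2 : (1 - 2 * t).natAbs • pv w = b := by
            rw [hb', ← natCast_zsmul, ← h1]
          rw [h2]; exact hb
        · have h2 : (1 - 2 * t).natAbs • pv w = -b := by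
            rw [hb', ← natCast_zsmul]
            conv_rhs => rw [h1]
            rw [neg_smul, neg_neg]
          rw [h2]; exact (LM H).neg_mem hb
  have hch := hchi (Ix k) _ (pv w) hT3 hT4
  obtain ⟨r0, r1⟩ := hC n hn T hT1
  set q := (AddSubgroup.closure (T : Set (V k))).relIndex
    (sat (AddSubgroup.closure (T : Set (V k)))) with hq
  obtain ⟨_, χ, hχ, hχz⟩ := hch
  have h1 := hvsp k H h.m.toNat htr q (Nat.pos_of_ne_zero r0) χ (fun v hv => hχ v (hT2 hv)) w hχz
  refine Sm_of (e := 1 + (46 * k + 6 + 2 * (19 * k + 3)) * 5) hn h1 ?_ ?_ le_rfl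
  · calc h.m.toNat * 40320 * q ^ 5 ≤
        (A * n) * 40320 * (C * n ^ (46 * k + 6 + 2 * (19 * k + 3))) ^ 5 := by gcongr
      _ = _ := by
        rw [mul_pow, ← pow_mul, pow_add n 1, pow_one]; ring
  · nlinarith

theorem csb (hbfs : BfsStmt) (hsiz : SizStmt) (hhmg : HmgStmt) (hcbz : CbzStmt)
    (hchi : ChiStmt) (hsep : SepStmt) (hvsp : VspStmt) (hidx : IdxStmt) (hcru : CruStmt) :
    CsbStmt := by
  classical
  intro k A hk
  obtain ⟨C1, hC1⟩ := hbfs k A
  obtain ⟨C2, hC2⟩ := hsiz k (A + C1)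
  obtain ⟨C3, hC3⟩ := core hhmg hcbz hchi hsep hidx k (A + C1 + 2 * C2) hk
  obtain ⟨C4, hC4⟩ := vcase hhmg hcru hchi hvsp k (A + C1 + 2 * C2) hk
  refine ⟨A ^ 2 + C3 + C4, ?_⟩
  intro n hn X hX hX0 g hgm hgx hg
  have hn0 : (0 : ℤ) < n := by exact_mod_cast hn
  obtain ⟨h, hh, hm, hmA, hdvd, hx1, hx2⟩ := hC1 n hn X hX hX0
  set H := Subgroup.closure (X : Set (Gp k)) with hH
  have p0 : ∀ e : ℕ, (0 : ℤ) ≤ (n : ℤ) ^ e := fun e => by positivity
  have le1 : ∀ (a B B' : ℤ) (e : ℕ), a ≤ B * (n : ℤ) ^ e → B ≤ B' → a ≤ B' * (n : ℤ) ^ e :=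
    fun a B B' e h1 h2 => h1.trans (mul_le_mul_of_nonneg_right h2 (p0 e))
  have c1 : (A : ℤ) ≤ ((A + C1 : ℕ) : ℤ) := by push_cast; omega
  have c2 : (C1 : ℤ) ≤ ((A + C1 : ℕ) : ℤ) := by push_cast; omega
  have c3 : (C2 : ℤ) ≤ ((A + C1 + 2 * C2 : ℕ) : ℤ) := by push_cast; omega
  have c4 : (C1 : ℤ) ≤ ((A + C1 + 2 * C2 : ℕ) : ℤ) := by push_cast; omega
  have c5 : (A : ℤ) ≤ ((A + C1 + 2 * C2 : ℕ) : ℤ) := by push_cast; omega
  have c6 : (2 * C2 : ℤ) ≤ ((A + C1 + 2 * C2 : ℕ) : ℤ) := by push_cast; omega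
  have le2 : ∀ (a B B' : ℤ), a ≤ B * (n : ℤ) → B ≤ B' → a ≤ B' * (n : ℤ) :=
    fun a B B' h1 h2 => h1.trans (mul_le_mul_of_nonneg_right h2 hn0.le)
  have siz : ∀ x : Gp k, |x.m| ≤ A * n → (∀ c, |x.x c| ≤ A * (n : ℤ) ^ (wt c)) → ∀ l : ℤ,
      x.m = l * h.m → (x * h ^ (-l)).m = 0 ∧
      (∀ c : Ix k, |(x * h ^ (-l)).x (Sum.inl c)| ≤ C2 * (n : ℤ) ^ (wtI c + 2)) ∧
      ∀ j, |(x * h ^ (-l)).x (Sum.inr j)| ≤ C2 * (n : ℤ) ^ 9 := by
    intro x hx1' hx2' l hl
    exact hC2 n hn h x hm (le2 _ _ _ hmA c1) (fun c => le1 _ _ _ _ (hx1 c) c2)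
      (fun j => le1 _ _ _ _ (hx2 j) c2) (le2 _ _ _ hx1' c1) (fun c => le1 _ _ _ _ (hx2' c) c1) l hl
  set Ys : Finset (W k) := X.image (fun x => (x * h ^ (-(x.m / h.m))).x) with hYs
  have hl : ∀ x ∈ X, x.m = x.m / h.m * h.m := fun x hx => (Int.ediv_mul_cancel (hdvd x hx)).symm
  have hYsz : ∀ y ∈ Ys, (∀ c : Ix k, |y (Sum.inl c)| ≤ C2 * (n : ℤ) ^ (wtI c + 2)) ∧
      ∀ j, |y (Sum.inr j)| ≤ C2 * (n : ℤ) ^ 9 := by
    intro y hy
    rw [hYs, Finset.mem_image] at hy
    obtain ⟨x, hx, rfl⟩ := hy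
    exact (siz x (hX x hx).1 (hX x hx).2 _ (hl x hx)).2
  have hYm : ∀ x ∈ X, x * h ^ (-(x.m / h.m)) = ⟨0, (x * h ^ (-(x.m / h.m))).x⟩ := fun x hx =>
    Gp.eta0 (siz x (hX x hx).1 (hX x hx).2 _ (hl x hx)).1
  have hHeq : H = Subgroup.closure (insert h ((fun x => (⟨0, x⟩ : Gp k)) '' (Ys : Set (W k)))) := by
    apply le_antisymm
    · rw [hH, Subgroup.closure_le]
      intro x hx
      have h1 : (⟨0, (x * h ^ (-(x.m / h.m))).x⟩ : Gp k) ∈
          Subgroup.closure (insert h ((fun x => (⟨0, x⟩ : Gp k)) '' (Ys : Set (W k)))) := by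
        apply Subgroup.subset_closure
        right
        refine ⟨_, ?_, rfl⟩
        rw [Finset.mem_coe, hYs, Finset.mem_image]
        exact ⟨x, hx, rfl⟩
      have h2 : h ∈ Subgroup.closure (insert h
          ((fun x => (⟨0, x⟩ : Gp k)) '' (Ys : Set (W k)))) :=
        Subgroup.subset_closure (Set.mem_insert _ _)
      rw [← hYm x hx] at h1
      have h3 := Subgroup.mul_mem _ h1 (Subgroup.zpow_mem _ h2 (x.m / h.m))
      rw [mul_assoc, ← zpow_add, neg_add_cancel, zpow_zero, mul_one] at h3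
      exact h3
    · rw [Subgroup.closure_le]
      intro x hx
      rcases hx with rfl | ⟨y, hy, rfl⟩
      · exact hh
      · rw [Finset.mem_coe, hYs, Finset.mem_image] at hy
        obtain ⟨x, hx, rfl⟩ := hy
        change (⟨0, (x * h ^ (-(x.m / h.m))).x⟩ : Gp k) ∈ H
        rw [← hYm x hx]
        exact H.mul_mem (Subgroup.subset_closure hx) (H.zpow_mem hh _)
  by_cases hd : h.m ∣ g.m
  swap
  · -- the first coordinate separates
    refine Sm_mono (by omega : A ^ 2 ≤ A ^ 2 + C3 + C4) ?_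
    have hN : ((h.m.toNat : ℕ) : ℤ) = h.m := Int.toNat_of_nonneg hm.le
    have : NeZero h.m.toNat := ⟨by omega⟩
    have h1 : mhom k h.m.toNat g ∉ H.map (mhom k h.m.toNat) := by
      rintro ⟨g', hg', he⟩
      apply hd
      have h2 : (g'.m : ZMod h.m.toNat) = (g.m : ZMod h.m.toNat) :=
        Multiplicative.ofAdd.injective he
      rw [← sub_eq_zero, ← Int.cast_sub, ZMod.intCast_zmod_eq_zero_iff_dvd, hN] at h2
      have h3 := (hhmg k h Ys H hm hHeq).1 g' hg'
      have h4 := dvd_sub h3 h2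
      have h5 : g'.m - (g'.m - g.m) = g.m := by ring
      rwa [h5] at h4
    have h2 := relDepth_le_card H g (Multiplicative (ZMod h.m.toNat)) (mhom k h.m.toNat) h1
    have h3 : Nat.card (Multiplicative (ZMod h.m.toNat)) = h.m.toNat := by
      rw [Nat.card_congr Multiplicative.toAdd, Nat.card_zmod]
    rw [h3] at h2
    refine Sm_of (e := 1) (K := A) hn h2 ?_ (by nlinarith) le_rfl
    have : h.m ≤ ((A * n : ℕ) : ℤ) := by push_cast; exact hmA
    rw [pow_one]
    omega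
  · obtain ⟨l, hl'⟩ := hd
    have hl2 : g.m = l * h.m := by rw [hl']; ring
    obtain ⟨s1, s2, s3⟩ := siz g hgm hgx l hl2
    set g' := g * h ^ (-l) with hg'
    have hhl : h ^ (-l) ∈ H := H.zpow_mem hh _
    have hrd : relDepth H g = relDepth H g' := (relDepth_mul_right H hhl g).symm
    have hSm : ∀ C, Sm C n H g' → Sm C n H g := by
      intro C ⟨d, h1, h2⟩
      exact ⟨d, by rw [hrd]; exact h1, h2⟩
    have hg'H : g' ∉ H := by
      intro hc
      apply hg
      have h3 := H.mul_mem hc (H.inv_mem hhl)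
      rw [hg', mul_assoc, mul_inv_cancel, mul_one] at h3
      exact h3
    apply hSm
    have hge : g' = ⟨0, g'.x⟩ := Gp.eta0 s1
    set w := g'.x with hw
    rw [hge]
    by_cases hv : pv w ∈ LM H
    swap
    · refine Sm_mono (by omega : C4 ≤ A ^ 2 + C3 + C4) ?_
      exact hC4 n hn h Ys H hm (le2 _ _ _ hmA c5)
        (fun y hy c => le1 _ _ _ _ ((hYsz y hy).1 c) c3) hHeq w
        (fun c => le1 _ _ _ _ (s2 c) c3) hv
    · refine Sm_mono (by omega : C3 ≤ A ^ 2 + C3 + C4) ?_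
      obtain ⟨h', hh', hm', hpv⟩ := hv
      set z : Fin 2 → ℤ := pz (w - h'.x) with hz
      have hwz : w - h'.x = zin z := eq_zin_of_pv (by rw [pv_sub, hpv, sub_self])
      have hprod : (⟨0, w⟩ : Gp k) = h' * ⟨0, zin z⟩ := by
        rw [Gp.eta0 hm', Gp.mul0, Bf_zin_right, add_zero, ← hwz]
        congr 1
        abel
      have hzL : z ∉ Lam H := by
        intro hc
        apply hg'H
        rw [hge, hprod]
        exact H.mul_mem hh' hc
      have key : ∀ C, Sm C n H ⟨0, zin z⟩ → Sm C n H ⟨0, w⟩ := by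
        intro C ⟨d, h1, h2⟩
        exact ⟨d, by rw [hprod, relDepth_mul_left H hh']; exact h1, h2⟩
      apply key
      by_cases hzs : z ∈ sat (Lam H)
      · exact hC3 n hn h Ys H hm (le2 _ _ _ hmA c5) (fun c => le1 _ _ _ _ (hx1 c) c4)
          (fun y hy => ⟨fun c => le1 _ _ _ _ ((hYsz y hy).1 c) c3,
            fun j => le1 _ _ _ _ ((hYsz y hy).2 j) c3⟩) hHeq z hzs hzL
      · -- add the square of the element
        set Ys' : Finset (W k) := insert (2 • w) Ys with hYs'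
        set H' : Subgroup (Gp k) := Subgroup.closure (insert h
          ((fun x => (⟨0, x⟩ : Gp k)) '' (Ys' : Set (W k)))) with hH'
        have hle : H ≤ H' := by
          rw [hHeq, hH']
          apply Subgroup.closure_mono
          apply Set.insert_subset_insert
          apply Set.image_mono
          intro y hy
          rw [Finset.mem_coe, hYs', Finset.mem_insert]
          exact Or.inr hy
        have hY's : ∀ y ∈ Ys', (∀ c : Ix k, |y (Sum.inl c)| ≤
            ((A + C1 + 2 * C2 : ℕ) : ℤ) * (n : ℤ) ^ (wtI c + 2)) ∧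
            ∀ j, |y (Sum.inr j)| ≤ ((A + C1 + 2 * C2 : ℕ) : ℤ) * (n : ℤ) ^ 9 := by
          intro y hy
          rw [hYs', Finset.mem_insert] at hy
          rcases hy with rfl | hy
          · constructor
            · intro c
              refine le1 _ (2 * C2) _ _ ?_ c6
              rw [Pi.smul_apply, nsmul_eq_mul, abs_mul]
              have := s2 c
              have h2 : |((2 : ℕ) : ℤ)| = 2 := rfl
              rw [h2]
              linarith
            · intro j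
              refine le1 _ (2 * C2) _ _ ?_ c6
              rw [Pi.smul_apply, nsmul_eq_mul, abs_mul]
              have := s3 j
              have h2 : |((2 : ℕ) : ℤ)| = 2 := rfl
              rw [h2]
              linarith
          · exact ⟨fun c => le1 _ _ _ _ ((hYsz y hy).1 c) c3,
              fun j => le1 _ _ _ _ ((hYsz y hy).2 j) c3⟩
        -- the elements of `H'`
        have hcen : ∀ (u : Gp k) (t : Fin 2 → ℤ), (⟨0, zin t⟩ : Gp k) * u = u * ⟨0, zin t⟩ := by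
          intro u t
          apply Gp.ext
          · simp
          · simp only [Gp.mul_x, tp_zero, tp_zin, Bf_zin_left, Bf_zin_right, add_zero]
            exact add_comm _ _
        have hmem : ∀ u ∈ H', ∃ u' ∈ H, ∃ t : ℤ, u = u' * ⟨0, zin ((2 * t) • z)⟩ := by
          intro u hu
          rw [hH'] at hu
          refine Subgroup.closure_induction (p := fun u _ => ∃ u' ∈ H, ∃ t : ℤ,
            u = u' * ⟨0, zin ((2 * t) • z)⟩) ?_ ?_ ?_ ?_ hu
          · intro u hu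
            rcases hu with rfl | ⟨y, hy, rfl⟩
            · refine ⟨u, hh, 0, ?_⟩
              rw [mul_zero, zero_smul, zin_zero, ← Gp.one_def, mul_one]
            · rw [Finset.mem_coe, hYs', Finset.mem_insert] at hy
              rcases hy with rfl | hy
              · refine ⟨h' * h', H.mul_mem hh' hh', 1, ?_⟩
                change (⟨0, 2 • w⟩ : Gp k) = _
                have e1 : (⟨0, 2 • w⟩ : Gp k) = (⟨0, w⟩ : Gp k) * ⟨0, w⟩ := by
                  rw [← Gp.pow0, pow_two]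
                have e2 : (⟨0, zin z⟩ : Gp k) * ⟨0, zin z⟩ = ⟨0, zin ((2 * 1 : ℤ) • z)⟩ := by
                  rw [Gp.mul0, Bf_zin_left, add_zero, ← zin_add, mul_one, two_smul]
                rw [e1, hprod, ← e2]
                have e3 := hcen h' z
                calc h' * (⟨0, zin z⟩ : Gp k) * (h' * ⟨0, zin z⟩)
                    = h' * ((⟨0, zin z⟩ : Gp k) * h') * ⟨0, zin z⟩ := by group
                  _ = h' * (h' * ⟨0, zin z⟩) * ⟨0, zin z⟩ := by rw [e3]
                  _ = _ := by group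
              · refine ⟨⟨0, y⟩, ?_, 0, ?_⟩
                · rw [hHeq]
                  exact Subgroup.subset_closure (Or.inr ⟨y, hy, rfl⟩)
                · rw [mul_zero, zero_smul, zin_zero, ← Gp.one_def, mul_one]
          · exact ⟨1, H.one_mem, 0, by
              rw [mul_zero, zero_smul, zin_zero, ← Gp.one_def, mul_one]⟩
          · rintro u v _ _ ⟨u', hu', t, rfl⟩ ⟨v', hv', t', rfl⟩
            refine ⟨u' * v', H.mul_mem hu' hv', t + t', ?_⟩
            have e2 : (⟨0, zin ((2 * t) • z)⟩ : Gp k) * ⟨0, zin ((2 * t') • z)⟩ =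
                ⟨0, zin ((2 * (t + t')) • z)⟩ := by
              rw [Gp.mul0, Bf_zin_left, add_zero, ← zin_add, ← add_smul, mul_add]
            have e3 := hcen v' ((2 * t) • z)
            calc u' * (⟨0, zin ((2 * t) • z)⟩ : Gp k) * (v' * ⟨0, zin ((2 * t') • z)⟩)
                = u' * ((⟨0, zin ((2 * t) • z)⟩ : Gp k) * v') * ⟨0, zin ((2 * t') • z)⟩ := by
                  group
              _ = u' * (v' * ⟨0, zin ((2 * t) • z)⟩) * ⟨0, zin ((2 * t') • z)⟩ := by rw [e3]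
              _ = u' * v' * (⟨0, zin ((2 * t) • z)⟩ * ⟨0, zin ((2 * t') • z)⟩) := by group
              _ = _ := by rw [e2]
          · rintro u _ ⟨u', hu', t, rfl⟩
            refine ⟨u'⁻¹, H.inv_mem hu', -t, ?_⟩
            rw [mul_inv_rev, Gp.inv0, ← zin_neg, hcen]
            congr 3
            rw [mul_neg, neg_smul]
        have hz'L : z ∉ Lam H' := by
          intro hc
          obtain ⟨u', hu', t, he⟩ := hmem _ hc
          apply hzs
          have e1 : (⟨0, zin ((1 - 2 * t) • z)⟩ : Gp k) ∈ H := by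
            have e2 : (⟨0, zin ((1 - 2 * t) • z)⟩ : Gp k) = u' := by
              have e3 : (⟨0, zin z⟩ : Gp k) * ⟨0, zin (-((2 * t) • z))⟩ = u' := by
                rw [he, mul_assoc, Gp.mul0, Bf_zin_left, add_zero, ← zin_add, add_neg_cancel,
                  zin_zero, ← Gp.one_def, mul_one]
              rw [← e3, Gp.mul0, Bf_zin_left, add_zero, ← zin_add, sub_smul, one_smul,
                sub_eq_add_neg]
            rw [e2]; exact hu'
          have hne : (1 - 2 * t : ℤ) ≠ 0 := by omega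
          refine ⟨(1 - 2 * t).natAbs, Int.natAbs_pos.2 hne, ?_⟩
          rcases Int.natAbs_eq (1 - 2 * t) with h1 | h1
          · have h2 : (1 - 2 * t).natAbs • z = (1 - 2 * t) • z := by
              rw [← natCast_zsmul, ← h1]
            rw [h2]; exact e1
          · have h2 : (1 - 2 * t).natAbs • z = -((1 - 2 * t) • z) := by
              rw [← natCast_zsmul]
              conv_rhs => rw [h1]
              rw [neg_smul, neg_neg]
            rw [h2]; exact (Lam H).neg_mem e1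
        have hz's : z ∈ sat (Lam H') := by
          refine ⟨2, by norm_num, ?_⟩
          change (⟨0, zin (2 • z)⟩ : Gp k) ∈ H'
          have h1 : (⟨0, 2 • w⟩ : Gp k) ∈ H' := by
            rw [hH']
            apply Subgroup.subset_closure
            right
            refine ⟨2 • w, ?_, rfl⟩
            rw [Finset.mem_coe, hYs', Finset.mem_insert]
            exact Or.inl rfl
          have e1 : (⟨0, 2 • w⟩ : Gp k) = (⟨0, w⟩ : Gp k) * ⟨0, w⟩ := by
            rw [← Gp.pow0, pow_two]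
          have e2 : (⟨0, zin z⟩ : Gp k) * ⟨0, zin z⟩ = ⟨0, zin (2 • z)⟩ := by
            rw [Gp.mul0, Bf_zin_left, add_zero, ← zin_add, two_smul]
          have e3 := hcen h' z
          have e4 : (⟨0, 2 • w⟩ : Gp k) = h' * h' * ⟨0, zin (2 • z)⟩ := by
            rw [e1, hprod, ← e2]
            calc h' * (⟨0, zin z⟩ : Gp k) * (h' * ⟨0, zin z⟩)
                = h' * ((⟨0, zin z⟩ : Gp k) * h') * ⟨0, zin z⟩ := by group
              _ = h' * (h' * ⟨0, zin z⟩) * ⟨0, zin z⟩ := by rw [e3]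
              _ = _ := by group
          have h2 := H'.mul_mem (H'.inv_mem (H'.mul_mem (hle hh') (hle hh'))) h1
          rw [e4, inv_mul_cancel_left] at h2
          exact h2
        obtain ⟨d, d1, d2⟩ := hC3 n hn h Ys' H' hm (le2 _ _ _ hmA c5)
          (fun c => le1 _ _ _ _ (hx1 c) c4) hY's rfl z hz's hz'L
        exact ⟨d, (relDepth_mono hle _).trans d1, d2⟩

end Pool.Agent.SBG.H28
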